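import Mathlib

set_option autoImplicit false

namespace Pool.Agent.Results.MP_64a7c6_pr.Q2
open Finset

/-- partitions of `n`, as weakly decreasing rows `λ : Fin n → ℕ` (padded with zeros) -/
def parts (n : ℕ) : Finset (Fin n → ℕ) :=
  (Finset.Nat.antidiagonalTuple n n).filter (fun l => ∀ i j : Fin n, i ≤ j → l j ≤ l i)

/-- number of standard Young tableaux of shape `l` with `m` boxes: the box holding the largest
entry is a removable corner, so this counts the chains of shapes from the empty shape to `l` -/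
def syt {n : ℕ} : ℕ → (Fin n → ℕ) → ℕ
  | 0, l => if ∀ i, l i = 0 then 1 else 0
  | m + 1, l => ∑ i, if 0 < l i ∧ ∀ j : Fin n, i < j → l j < l i
      then syt m (Function.update l i (l i - 1)) else 0

/-- Plancherel probability that `λ_1 + ⋯ + λ_r = j` -/
def mu (n r j : ℕ) : ℚ :=
  ∑ l ∈ (parts n).filter (fun l => ∑ i ∈ univ.filter (fun i : Fin n => i.val < r), l i = j),
    ((syt n l : ℚ) ^ 2) / n.factorial

theorem result : ∃ n r j : ℕ, 1 ≤ n ∧ 2 ≤ r ∧ 1 ≤ j ∧
    mu n r j ^ 2 < mu n r (j - 1) * mu n r (j + 1) := by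
  refine ⟨6, 4, 5, by norm_num, by norm_num, by norm_num, ?_⟩
  decide +kernel

end Pool.Agent.Results.MP_64a7c6_pr.Q2
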